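import Mathlib
import Pool.Agent.Helper635.LLL

/-!
Withdrawn hand-in (was Pool/Agent/S07181.lean): proper halving 2-colourings of uniform hypergraphs with
maximum degree at most c^n, c < 2.  The result is known: H. Gebauer, Disproof of the Neighborhood Conjecture with
Implications to SAT (maximum degree at most 2^(n-2)/(en) suffices).
-/

set_option autoImplicit false

namespace Pool.Agent.Q271.Halving

open Classical in
/-- The red set given by the coin flips `ω`: from the pair number `t` we take the first vertex if
`ω t = true` and the second one otherwise. -/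
noncomputable def red {T : Type} [Fintype T] (x y : T → ℕ) (ω : T → Bool) : Finset ℕ :=
  Finset.univ.image (fun t => if ω t = true then x t else y t)

open Classical in
/-- the pairs that meet `A` -/
noncomputable def blocks {T : Type} [Fintype T] (x y : T → ℕ) (A : Finset ℕ) : Finset T :=
  Finset.univ.filter (fun t => x t ∈ A ∨ y t ∈ A)

open Classical in
lemma card_fixed {T : Type} [Fintype T] (S : Finset T) (g : T → Bool) :
    (Finset.univ.filter (fun ω : T → Bool => ∀ t ∈ S, ω t = g t)).card * 2 ^ S.card
      = Fintype.card (T → Bool) := by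
  have h1 : (Finset.univ.filter (fun ω : T → Bool => ∀ t ∈ S, ω t = g t))
      = Fintype.piFinset (fun t => if t ∈ S then {g t} else (Finset.univ : Finset Bool)) := by
    ext ω
    simp only [Finset.mem_filter, Finset.mem_univ, true_and, Fintype.mem_piFinset]
    constructor
    · intro h t
      by_cases ht : t ∈ S
      · simp [ht, h t ht]
      · simp [ht]
    · intro h t ht
      have := h t
      simpa [ht] using this
  rw [h1, Fintype.card_piFinset]
  have h2 : ∀ t : T, (if t ∈ S then ({g t} : Finset Bool) else Finset.univ).card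
      = if t ∈ S then 1 else 2 := by
    intro t
    by_cases ht : t ∈ S <;> simp [ht]
  rw [Finset.prod_congr rfl (fun t _ => h2 t)]
  rw [Finset.prod_ite]
  simp only [Finset.prod_const_one, one_mul, Finset.prod_const]
  rw [Fintype.card_fun, Fintype.card_bool, ← pow_add]
  congr 1
  have h3 : (Finset.univ.filter (fun t => t ∉ S)).card + S.card = Fintype.card T := by
    have h4 : (Finset.univ.filter (fun t => t ∉ S)) = Sᶜ := by
      ext t; simp
    rw [h4, Finset.card_compl]
    have := Finset.card_le_univ S
    omega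
  exact h3

section
variable {T : Type} [Fintype T] (x y : T → ℕ) 

lemma mem_red {ω : T → Bool} {v : ℕ} :
    v ∈ red x y ω ↔ ∃ t, (if ω t = true then x t else y t) = v := by
  simp [red]

lemma mem_blocks {A : Finset ℕ} {t : T} : t ∈ blocks x y A ↔ x t ∈ A ∨ y t ∈ A := by
  simp [blocks]

/-- all the vertices `x t`, `y t` are distinct -/
structure Good : Prop where
  xx : ∀ s t, x s = x t → s = t
  yy : ∀ s t, y s = y t → s = t
  xy : ∀ s t, x s ≠ y t

/-- the bad event -/
def Bad (A : Finset ℕ) (ω : T → Bool) : Prop :=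
  (∀ v ∈ A, v ∉ red x y ω) ∨ A ⊆ red x y ω

variable {x y}

lemma bad_depends (A : Finset ℕ) :
    Pool.Agent.Helper635.LLL.DependsOn (Bad x y A) (blocks x y A) := by
  intro ω ω' h hb
  have key : ∀ v ∈ A, (v ∈ red x y ω ↔ v ∈ red x y ω') := by
    intro v hv
    rw [mem_red, mem_red]
    constructor
    · rintro ⟨t, ht⟩
      have htA : t ∈ blocks x y A := by
        rw [mem_blocks]
        by_cases hω : ω t = true
        · left; rw [if_pos hω] at ht; rw [ht]; exact hv
        · right; rw [if_neg hω] at ht; rw [ht]; exact hv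
      exact ⟨t, by rw [← h t htA]; exact ht⟩
    · rintro ⟨t, ht⟩
      have htA : t ∈ blocks x y A := by
        rw [mem_blocks]
        by_cases hω : ω' t = true
        · left; rw [if_pos hω] at ht; rw [ht]; exact hv
        · right; rw [if_neg hω] at ht; rw [ht]; exact hv
      exact ⟨t, by rw [h t htA]; exact ht⟩
  rcases hb with hb | hb
  · left
    intro v hv hv'
    exact hb v hv ((key v hv).2 hv')
  · right
    intro v hv
    exact (key v hv).1 (hb hv)

lemma red_x (hg : Good x y) {ω : T → Bool} {t : T} : x t ∈ red x y ω ↔ ω t = true := by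
  rw [mem_red]
  constructor
  · rintro ⟨s, hs⟩
    by_cases hω : ω s = true
    · rw [if_pos hω] at hs
      rw [← hg.xx s t hs]; exact hω
    · rw [if_neg hω] at hs
      exact absurd hs.symm (hg.xy t s)
  · intro h
    exact ⟨t, by rw [if_pos h]⟩

lemma red_y (hg : Good x y) {ω : T → Bool} {t : T} : y t ∈ red x y ω ↔ ω t = false := by
  rw [mem_red]
  constructor
  · rintro ⟨s, hs⟩
    by_cases hω : ω s = true
    · rw [if_pos hω] at hs
      exact absurd hs (hg.xy s t)
    · rw [if_neg hω] at hs
      rw [← hg.yy s t hs]; simpa using hω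
  · intro h
    exact ⟨t, by rw [if_neg (by simp [h])]⟩

open Classical in
lemma cnt_bad (hg : Good x y) (A : Finset ℕ) (n : ℕ) (hn : 1 ≤ n)
    (hA : (∀ t, ¬ (x t ∈ A ∧ y t ∈ A)) → n - 1 ≤ (blocks x y A).card) :
    (Pool.Agent.Helper635.LLL.cnt (Bad x y A) : ℝ) ≤ (4 / 2 ^ n) * Fintype.card (T → Bool) := by
  unfold Pool.Agent.Helper635.LLL.cnt
  by_cases hd : ∀ t, ¬ (x t ∈ A ∧ y t ∈ A)
  · have hcard := hA hd
    set S := blocks x y A with hS
    have hsub : Pool.Agent.Helper635.LLL.ev (Bad x y A) ⊆
        (Finset.univ.filter (fun ω : T → Bool => ∀ t ∈ S, ω t = decide (y t ∈ A))) ∪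
        (Finset.univ.filter (fun ω : T → Bool => ∀ t ∈ S, ω t = decide (x t ∈ A))) := by
      intro ω hω
      rw [Pool.Agent.Helper635.LLL.mem_ev] at hω
      rw [Finset.mem_union]
      rcases hω with hb | hb
      · left
        rw [Finset.mem_filter]
        refine ⟨Finset.mem_univ _, fun t ht => ?_⟩
        rw [hS, mem_blocks] at ht
        rcases ht with hx | hy
        · have h1 := hb _ hx
          rw [red_x hg] at h1
          have h2 : y t ∉ A := fun h => hd t ⟨hx, h⟩
          simp [h2]
          simpa using h1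
        · have h1 := hb _ hy
          rw [red_y hg] at h1
          simp [hy]
          simpa using h1
      · right
        rw [Finset.mem_filter]
        refine ⟨Finset.mem_univ _, fun t ht => ?_⟩
        rw [hS, mem_blocks] at ht
        rcases ht with hx | hy
        · have h1 := hb hx
          rw [red_x hg] at h1
          simp [hx, h1]
        · have h1 := hb hy
          rw [red_y hg] at h1
          have h2 : x t ∉ A := fun h => hd t ⟨h, hy⟩
          simp [h2, h1]
    have h1 := card_fixed S (fun t => decide (y t ∈ A))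
    have h2 := card_fixed S (fun t => decide (x t ∈ A))
    have h3 := (Finset.card_le_card hsub).trans (Finset.card_union_le _ _)
    set a := (Finset.univ.filter (fun ω : T → Bool => ∀ t ∈ S, ω t = decide (y t ∈ A))).card
    set b := (Finset.univ.filter (fun ω : T → Bool => ∀ t ∈ S, ω t = decide (x t ∈ A))).card
    have h4 : 2 ^ n ≤ 2 * 2 ^ S.card := by
      have : 2 ^ n ≤ 2 ^ (S.card + 1) := Nat.pow_le_pow_right (by norm_num) (by omega)
      rw [pow_succ] at this
      omega
    have h5 : ((Pool.Agent.Helper635.LLL.ev (Bad x y A)).card : ℝ) ≤ a + b := by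
      exact_mod_cast h3
    have h1' : (a : ℝ) * 2 ^ S.card = Fintype.card (T → Bool) := by exact_mod_cast h1
    have h2' : (b : ℝ) * 2 ^ S.card = Fintype.card (T → Bool) := by exact_mod_cast h2
    have h4' : (2 : ℝ) ^ n ≤ 2 * 2 ^ S.card := by exact_mod_cast h4
    have hp : (0 : ℝ) < 2 ^ n := by positivity
    rw [div_mul_eq_mul_div, le_div_iff₀ hp]
    have ha : (0 : ℝ) ≤ a := Nat.cast_nonneg _
    have hb : (0 : ℝ) ≤ b := Nat.cast_nonneg _
    calc ((Pool.Agent.Helper635.LLL.ev (Bad x y A)).card : ℝ) * 2 ^ n
        ≤ (a + b) * (2 * 2 ^ S.card) := by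
          apply mul_le_mul h5 h4' hp.le (by positivity)
      _ = 2 * (a * 2 ^ S.card) + 2 * (b * 2 ^ S.card) := by ring
      _ = 4 * Fintype.card (T → Bool) := by rw [h1', h2']; ring
  · push Not at hd
    obtain ⟨t, hx, hy⟩ := hd
    have : Pool.Agent.Helper635.LLL.ev (Bad x y A) = ∅ := by
      rw [Finset.eq_empty_iff_forall_notMem]
      intro ω hω
      rw [Pool.Agent.Helper635.LLL.mem_ev] at hω
      rcases hω with hb | hb
      · have h1 := hb _ hx
        have h2 := hb _ hy
        rw [red_x hg] at h1
        rw [red_y hg] at h2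
        cases h : ω t
        · exact h2 h
        · exact h1 h
      · have h1 := hb hx
        have h2 := hb hy
        rw [red_x hg] at h1
        rw [red_y hg] at h2
        rw [h1] at h2
        exact absurd h2 (by simp)
    rw [this]
    simp

open Classical in
lemma card_blocks_le (hg : Good x y) (A : Finset ℕ) : (blocks x y A).card ≤ A.card := by
  refine Finset.card_le_card_of_injOn (fun t => if x t ∈ A then x t else y t) ?_ ?_
  · intro t ht
    rw [Finset.mem_coe, mem_blocks] at ht
    by_cases hx : x t ∈ A
    · simp [hx]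
    · simp only [hx, if_false]
      rcases ht with h | h
      · exact absurd h hx
      · exact h
  · intro s hs t ht hst
    by_cases h1 : x s ∈ A <;> by_cases h2 : x t ∈ A
    · simp only [h1, h2, if_true] at hst
      exact hg.xx s t hst
    · simp only [h1, h2, if_true, if_false] at hst
      exact absurd hst (hg.xy s t)
    · simp only [h1, h2, if_true, if_false] at hst
      exact absurd hst.symm (hg.xy t s)
    · simp only [h1, h2, if_false] at hst
      exact hg.yy s t hst

end

/-- pairing up a finite set -/
lemma exists_pairing (W : Finset ℕ) :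
    ∃ x y : Fin (W.card / 2) → ℕ, Good x y ∧ (∀ t, x t ∈ W) ∧ (∀ t, y t ∈ W) ∧
      ∃ z : ℕ, ∀ v ∈ W, v = z ∨ ∃ t, x t = v ∨ y t = v := by
  classical
  set N := W.card with hN
  let e := W.equivFin
  have h2 : ∀ t : Fin (N / 2), 2 * t.val < N := by intro t; have := t.2; omega
  have h3 : ∀ t : Fin (N / 2), 2 * t.val + 1 < N := by intro t; have := t.2; omega
  refine ⟨fun t => (e.symm ⟨2 * t.val, h2 t⟩ : ℕ), fun t => (e.symm ⟨2 * t.val + 1, h3 t⟩ : ℕ),
    ⟨?_, ?_, ?_⟩, ?_, ?_, ?_⟩
  · intro s t h
    have h4 : e.symm ⟨2 * s.val, h2 s⟩ = e.symm ⟨2 * t.val, h2 t⟩ := Subtype.ext h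
    have h5 := e.symm.injective h4
    have h6 := congrArg Fin.val h5
    simp at h6
    exact Fin.ext h6
  · intro s t h
    have h4 : e.symm ⟨2 * s.val + 1, h3 s⟩ = e.symm ⟨2 * t.val + 1, h3 t⟩ := Subtype.ext h
    have h5 := e.symm.injective h4
    have h6 := congrArg Fin.val h5
    simp at h6
    exact Fin.ext h6
  · intro s t h
    have h4 : e.symm ⟨2 * s.val, h2 s⟩ = e.symm ⟨2 * t.val + 1, h3 t⟩ := Subtype.ext h
    have h5 := e.symm.injective h4
    have h6 := congrArg Fin.val h5
    simp at h6
    omega
  · intro t; exact (e.symm ⟨2 * t.val, h2 t⟩).2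
  · intro t; exact (e.symm ⟨2 * t.val + 1, h3 t⟩).2
  · by_cases hodd : N % 2 = 1
    · have hl : N - 1 < N := by omega
      refine ⟨(e.symm ⟨N - 1, hl⟩ : ℕ), ?_⟩
      intro v hv
      set i := e ⟨v, hv⟩ with hi
      have hvi : (e.symm i : ℕ) = v := by rw [hi]; simp
      have hiN := i.2
      by_cases hlast : i.val = N - 1
      · left
        rw [← hvi]
        have h5 : i = ⟨N - 1, hl⟩ := Fin.ext hlast
        rw [h5]
      · right
        refine ⟨⟨i.val / 2, by omega⟩, ?_⟩
        by_cases hev : i.val % 2 = 0
        · left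
          have h5 : (⟨2 * (i.val / 2), by omega⟩ : Fin N) = i := by
            apply Fin.ext
            simp only
            omega
          show (e.symm ⟨2 * (i.val / 2), _⟩ : ℕ) = v
          rw [h5]; exact hvi
        · right
          have h5 : (⟨2 * (i.val / 2) + 1, by omega⟩ : Fin N) = i := by
            apply Fin.ext
            simp only
            omega
          show (e.symm ⟨2 * (i.val / 2) + 1, _⟩ : ℕ) = v
          rw [h5]; exact hvi
    · refine ⟨0, ?_⟩
      intro v hv
      set i := e ⟨v, hv⟩ with hi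
      have hvi : (e.symm i : ℕ) = v := by rw [hi]; simp
      have hiN := i.2
      right
      refine ⟨⟨i.val / 2, by omega⟩, ?_⟩
      by_cases hev : i.val % 2 = 0
      · left
        have h5 : (⟨2 * (i.val / 2), by omega⟩ : Fin N) = i := by
          apply Fin.ext
          simp only
          omega
        show (e.symm ⟨2 * (i.val / 2), _⟩ : ℕ) = v
        rw [h5]; exact hvi
      · right
        have h5 : (⟨2 * (i.val / 2) + 1, by omega⟩ : Fin N) = i := by
          apply Fin.ext
          simp only
          omega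
        show (e.symm ⟨2 * (i.val / 2) + 1, _⟩ : ℕ) = v
        rw [h5]; exact hvi

lemma eventually_small (c : ℝ) (h1 : 1 < c) (h2 : c < 2) :
    ∃ n₀ : ℕ, ∀ n : ℕ, n₀ ≤ n → 16 * (2 * n * c ^ n + 1) ≤ (2 : ℝ) ^ n := by
  have ha : Filter.Tendsto (fun n : ℕ => (n : ℝ) ^ 1 * (c / 2) ^ n) Filter.atTop (nhds 0) := by
    apply tendsto_pow_const_mul_const_pow_of_abs_lt_one
    rw [abs_of_pos (by linarith)]
    linarith
  have hb : Filter.Tendsto (fun n : ℕ => ((1 : ℝ) / 2) ^ n) Filter.atTop (nhds 0) :=
    tendsto_pow_atTop_nhds_zero_of_lt_one (by norm_num) (by norm_num)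
  have hc : Filter.Tendsto (fun n : ℕ => 32 * ((n : ℝ) ^ 1 * (c / 2) ^ n) + 16 * ((1 : ℝ) / 2) ^ n)
      Filter.atTop (nhds (32 * 0 + 16 * 0)) := (ha.const_mul 32).add (hb.const_mul 16)
  have hd : ∀ᶠ n : ℕ in Filter.atTop,
      32 * ((n : ℝ) ^ 1 * (c / 2) ^ n) + 16 * ((1 : ℝ) / 2) ^ n < 1 := by
    apply hc.eventually_lt_const
    norm_num
  obtain ⟨n₀, hn₀⟩ := Filter.eventually_atTop.mp hd
  refine ⟨n₀, fun n hn => ?_⟩
  have h := hn₀ n hn
  have hp : (0 : ℝ) < 2 ^ n := by positivity
  have e1 : 16 * (2 * n * c ^ n + 1) / (2 : ℝ) ^ n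
      = 32 * ((n : ℝ) ^ 1 * (c / 2) ^ n) + 16 * ((1 : ℝ) / 2) ^ n := by
    rw [div_pow, div_pow]
    field_simp
    ring
  rw [← e1, div_lt_one hp] at h
  exact h.le

/-- For every c in (1,2) there is n0 such that for n ≥ n0 every n-uniform finite hypergraph with all degrees at most c^n has a red set of exactly half (floor) of its vertices such that no edge is all red or all blue. -/
theorem halving :
    ∀ c : ℝ, 1 < c → c < 2 →
      ∃ n₀ : ℕ, ∀ n : ℕ, n₀ ≤ n →
        ∀ F : Finset (Finset ℕ),
          (∀ A ∈ F, A.card = n) →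
          (∀ v : ℕ, ((F.filter (fun A => v ∈ A)).card : ℝ) ≤ c ^ n) →
          ∃ R : Finset ℕ, R ⊆ F.biUnion id ∧
            R.card = (F.biUnion id).card / 2 ∧
            ∀ A ∈ F, (A ∩ R).Nonempty ∧ ¬ A ⊆ R := by
  classical
  intro c hc1 hc2
  obtain ⟨n₀, hn₀⟩ := eventually_small c hc1 hc2
  refine ⟨n₀ + 1, fun n hn F hF hdeg => ?_⟩
  have hnn : n₀ ≤ n := by omega
  have hn1 : 1 ≤ n := by omega
  have hsmall := hn₀ n hnn
  set W := F.biUnion id with hW
  obtain ⟨x, y, hg, hxW, hyW, z, hz⟩ := exists_pairing W
  have hsub : ∀ A ∈ F, A ⊆ W := by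
    intro A hA v hv
    rw [hW, Finset.mem_biUnion]
    exact ⟨A, hA, hv⟩
  have hcn : (0 : ℝ) ≤ c ^ n := by positivity
  set d : ℕ := ⌊2 * (n : ℝ) * c ^ n⌋₊ + 1 with hd
  -- apply the local lemma
  have hlll : ∃ ω : Fin (W.card / 2) → Bool, ∀ A ∈ F, ¬ Bad x y A ω := by
    refine Pool.Agent.Helper635.LLL.lll F (fun A => Bad x y A) (fun A => blocks x y A)
      (fun A _ => bad_depends A) (4 / 2 ^ n) d (by positivity) ?_ ?_ ?_ (by omega) ?_
    · intro A hA
      refine cnt_bad hg A n hn1 ?_
      intro hdis
      -- A minus z injects into the blocks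
      have h1 : (A.erase z).card ≤ (blocks x y A).card := by
        have h2 : ∀ v ∈ A.erase z, ∃ t, x t = v ∨ y t = v := by
          intro v hv
          rw [Finset.mem_erase] at hv
          rcases hz v (hsub A hA hv.2) with h | h
          · exact absurd h hv.1
          · exact h
        rcases (A.erase z).eq_empty_or_nonempty with hemp | ⟨v₀, hv₀⟩
        · rw [hemp]; simp
        obtain ⟨t₀, _⟩ := h2 v₀ hv₀
        have : Nonempty (Fin (W.card / 2)) := ⟨t₀⟩
        choose! f hf using h2
        refine Finset.card_le_card_of_injOn f ?_ ?_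
        · intro v hv
          rw [Finset.mem_coe] at hv
          have hvA : v ∈ A := Finset.mem_of_mem_erase hv
          rw [Finset.mem_coe, mem_blocks]
          rcases hf v hv with h | h
          · left; rw [h]; exact hvA
          · right; rw [h]; exact hvA
        · intro v hv w hw hvw
          rw [Finset.mem_coe] at hv hw
          have hvA : v ∈ A := Finset.mem_of_mem_erase hv
          have hwA : w ∈ A := Finset.mem_of_mem_erase hw
          rcases hf v hv with h | h <;> rcases hf w hw with h' | h'
          · rw [← h, ← h', hvw]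
          · exact absurd ⟨by rw [h]; exact hvA, by rw [hvw, h']; exact hwA⟩ (hdis (f v))
          · exact absurd ⟨by rw [hvw, h']; exact hwA, by rw [h]; exact hvA⟩ (hdis (f v))
          · rw [← h, ← h', hvw]
      have h3 := Finset.pred_card_le_card_erase (s := A) (a := z)
      rw [hF A hA] at h3
      omega
    · intro A hA
      -- the number of neighbours
      have h1 : (F.filter (fun B => ¬ Disjoint (blocks x y A) (blocks x y B))) ⊆
          (blocks x y A).biUnion (fun t => (F.filter (fun B => x t ∈ B)) ∪
            (F.filter (fun B => y t ∈ B))) := by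
        intro B hB
        rw [Finset.mem_filter] at hB
        obtain ⟨hBF, hnd⟩ := hB
        rw [Finset.not_disjoint_iff] at hnd
        obtain ⟨t, htA, htB⟩ := hnd
        rw [Finset.mem_biUnion]
        refine ⟨t, htA, ?_⟩
        rw [mem_blocks] at htB
        rw [Finset.mem_union, Finset.mem_filter, Finset.mem_filter]
        rcases htB with h | h
        · left; exact ⟨hBF, h⟩
        · right; exact ⟨hBF, h⟩
      have h2 : (((blocks x y A).biUnion (fun t => (F.filter (fun B => x t ∈ B)) ∪
            (F.filter (fun B => y t ∈ B)))).card : ℝ) ≤ 2 * n * c ^ n := by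
        have h3 : (((blocks x y A).biUnion (fun t => (F.filter (fun B => x t ∈ B)) ∪
            (F.filter (fun B => y t ∈ B)))).card : ℝ) ≤
            ∑ t ∈ blocks x y A, (2 * c ^ n) := by
          have h4 : ((blocks x y A).biUnion (fun t => (F.filter (fun B => x t ∈ B)) ∪
            (F.filter (fun B => y t ∈ B)))).card ≤
            ∑ t ∈ blocks x y A, ((F.filter (fun B => x t ∈ B)) ∪
              (F.filter (fun B => y t ∈ B))).card := Finset.card_biUnion_le
          calc (((blocks x y A).biUnion (fun t => (F.filter (fun B => x t ∈ B)) ∪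
            (F.filter (fun B => y t ∈ B)))).card : ℝ) ≤
            ((∑ t ∈ blocks x y A, ((F.filter (fun B => x t ∈ B)) ∪
              (F.filter (fun B => y t ∈ B))).card : ℕ) : ℝ) := by exact_mod_cast h4
            _ = ∑ t ∈ blocks x y A, ((((F.filter (fun B => x t ∈ B)) ∪
              (F.filter (fun B => y t ∈ B))).card : ℕ) : ℝ) := by rw [Nat.cast_sum]
            _ ≤ ∑ t ∈ blocks x y A, (2 * c ^ n) := by
              refine Finset.sum_le_sum (fun t _ => ?_)
              have h5 := Finset.card_union_le (F.filter (fun B => x t ∈ B))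
                (F.filter (fun B => y t ∈ B))
              have h6 := hdeg (x t)
              have h7 := hdeg (y t)
              have h8 : ((((F.filter (fun B => x t ∈ B)) ∪
                (F.filter (fun B => y t ∈ B))).card : ℕ) : ℝ) ≤
                ((F.filter (fun B => x t ∈ B)).card : ℝ) +
                ((F.filter (fun B => y t ∈ B)).card : ℝ) := by exact_mod_cast h5
              linarith
        rw [Finset.sum_const, nsmul_eq_mul] at h3
        have h9 : ((blocks x y A).card : ℝ) ≤ n := by
          have := card_blocks_le hg A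
          rw [hF A hA] at this
          exact_mod_cast this
        calc _ ≤ ((blocks x y A).card : ℝ) * (2 * c ^ n) := h3
          _ ≤ n * (2 * c ^ n) := mul_le_mul_of_nonneg_right h9 (by positivity)
          _ = 2 * n * c ^ n := by ring
      have h10 : (F.filter (fun B => ¬ Disjoint (blocks x y A) (blocks x y B))).card ≤
          ⌊2 * (n : ℝ) * c ^ n⌋₊ := by
        apply Nat.le_floor
        exact le_trans (by exact_mod_cast Finset.card_le_card h1) h2
      rw [hd]
      convert Nat.le_succ_of_le h10
    · have h1 : (d : ℝ) ≤ 2 * n * c ^ n + 1 := by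
        rw [hd]
        push_cast
        have := Nat.floor_le (show (0 : ℝ) ≤ 2 * (n : ℝ) * c ^ n by positivity)
        linarith
      have hp : (0 : ℝ) < 2 ^ n := by positivity
      have h2 : 4 * (4 / (2 : ℝ) ^ n) * d = 16 * d / 2 ^ n := by ring
      rw [h2, div_le_one hp]
      linarith
    · have hpos := Fintype.card_pos_iff.mpr
        (⟨fun _ => true⟩ : Nonempty (Fin (W.card / 2) → Bool))
      convert hpos
  obtain ⟨ω, hω⟩ := hlll
  refine ⟨red x y ω, ?_, ?_, ?_⟩
  · intro v hv
    rw [mem_red] at hv
    obtain ⟨t, ht⟩ := hv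
    by_cases h : ω t = true
    · rw [if_pos h] at ht; rw [← ht]; exact hxW t
    · rw [if_neg h] at ht; rw [← ht]; exact hyW t
  · unfold red
    rw [Finset.card_image_of_injective]
    · simp
    · intro s t hst
      by_cases h1 : ω s = true <;> by_cases h2 : ω t = true
      · simp only [h1, h2, if_true] at hst
        exact hg.xx s t hst
      · simp only [h1, h2, if_true] at hst
        exact absurd hst (hg.xy s t)
      · simp only [h1, h2, if_true] at hst
        exact absurd hst.symm (hg.xy t s)
      · simp only [h1, h2] at hst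
        exact hg.yy s t hst
  · intro A hA
    have h := hω A hA
    unfold Bad at h
    push Not at h
    obtain ⟨⟨v, hvA, hvR⟩, hns⟩ := h
    exact ⟨⟨v, Finset.mem_inter.mpr ⟨hvA, hvR⟩⟩, hns⟩

end Pool.Agent.Q271.Halving
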